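import Pool.Agent.V1166.GA.Right

/-!
# MP_c3b2eb_al, Q1 (positive answer)

Over a graded right artinian ring, a finitely generated right module which has a right
approximation by finitely generated gradable modules is gradable.

Right `R`-modules are modules over `Rᵐᵒᵖ`.
-/

namespace Pool.Agent.Results.MP_c3b2eb_al.ApproximationGradable

universe u

/-- `R` is a graded ring: `R = ⨁ R_i` (internal direct sum of additive subgroups) and
`R_i R_j ⊆ R_{i+j}`. -/
def IsGradedRing {R : Type u} [Ring R] (A : ℤ → AddSubgroup R) : Prop :=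
  DirectSum.IsInternal A ∧ ∀ i j : ℤ, ∀ a ∈ A i, ∀ b ∈ A j, a * b ∈ A (i + j)

/-- `N` with the family `B` is a graded right module: `N = ⨁ N_i` and `N_i R_j ⊆ N_{i+j}`. -/
def IsGradedModule {R : Type u} [Ring R] (A : ℤ → AddSubgroup R) {N : Type u} [AddCommGroup N]
    [Module Rᵐᵒᵖ N] (B : ℤ → AddSubgroup N) : Prop :=
  DirectSum.IsInternal B ∧ ∀ i j : ℤ, ∀ n ∈ B i, ∀ r ∈ A j, MulOpposite.op r • n ∈ B (i + j)

/-- `M` is gradable: it is isomorphic, as an ungraded right module, to a graded right module. -/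
def Gradable {R : Type u} [Ring R] (A : ℤ → AddSubgroup R) (M : Type u) [AddCommGroup M]
    [Module Rᵐᵒᵖ M] : Prop :=
  ∃ (N : Type u) (_ : AddCommGroup N) (_ : Module Rᵐᵒᵖ N) (B : ℤ → AddSubgroup N),
    IsGradedModule A B ∧ Nonempty (M ≃ₗ[Rᵐᵒᵖ] N)

/-- `N` has a right approximation by finitely generated gradable modules: a map `f : G → N`
with `G` finitely generated and gradable such that every map `g : C → N` with `C` finitely
generated and gradable factors through `f`. -/
def HasRightApproximation {R : Type u} [Ring R] (A : ℤ → AddSubgroup R) (N : Type u)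
    [AddCommGroup N] [Module Rᵐᵒᵖ N] : Prop :=
  ∃ (G : Type u) (_ : AddCommGroup G) (_ : Module Rᵐᵒᵖ G) (f : G →ₗ[Rᵐᵒᵖ] N),
    (Module.Finite Rᵐᵒᵖ G ∧ Gradable A G) ∧
    ∀ (C : Type u) (_ : AddCommGroup C) (_ : Module Rᵐᵒᵖ C) (g : C →ₗ[Rᵐᵒᵖ] N),
      Module.Finite Rᵐᵒᵖ C → Gradable A C → ∃ h : C →ₗ[Rᵐᵒᵖ] G, f ∘ₗ h = g

/-- Over a graded right artinian ring, a finitely generated right module with a right
approximation by finitely generated gradable modules is gradable. -/
theorem result (R : Type u) [Ring R] (A : ℤ → AddSubgroup R) (hA : IsGradedRing A)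
    (hR : IsArtinian Rᵐᵒᵖ R) (N : Type u) [AddCommGroup N] [Module Rᵐᵒᵖ N]
    (hN : Module.Finite Rᵐᵒᵖ N) (h : HasRightApproximation A N) : Gradable A N :=
  Pool.Agent.V1166.GA.right_approx R A hA hR N h

end Pool.Agent.Results.MP_c3b2eb_al.ApproximationGradable
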